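import Pool.Agent.H17.Bm11

set_option autoImplicit false

namespace Pool.Agent.Results.MP_8976f7_nt.Bounded

/-- `A m k n`: the number of `k`-coloured `m`-ary partitions of `n`, the coefficient of `x ^ n` in
`∏ (1 - x ^ (m ^ i)) ^ (-k)`; the factor `1 / (1 - x ^ (m ^ i))` is the series with coefficient `1`
at the multiples of `m ^ i`, and the factors with `i > n` do not affect the coefficient. -/
noncomputable def A (m k n : ℕ) : ℕ :=
  PowerSeries.coeff n ((∏ i ∈ Finset.range (n + 1),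
    PowerSeries.mk (fun j : ℕ => if m ^ i ∣ j then (1 : ℕ) else 0)) ^ k)

/-- The exceptional set `E_p`. -/
def E (p : ℕ) : Set ℕ :=
  {k | ∃ s u : ℕ, 1 ≤ u ∧ u ≤ p - 1 ∧ k = (p - 1) * (u * p ^ s - 1)}

theorem result :
    (11 ∉ E 2 ∧ ∀ n : ℕ, padicValNat 2 (A 2 11 n) ≤ 4) ∧
    ¬ (∀ p k : ℕ, p.Prime → 0 < k → k ∉ E p →
        ∀ B : ℕ, ∃ n : ℕ, B < padicValNat p (A p k n)) := by
  have h1 : 11 ∉ E 2 := by
    rintro ⟨s, u, hu1, hu2, h⟩
    obtain rfl : u = 1 := by omega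
    have hpos : 0 < 2 ^ s := by positivity
    have h12 : 2 ^ s = 12 := by omega
    have h3 : 3 ∣ 2 ^ s := by rw [h12]; norm_num
    have := (Nat.prime_three).dvd_of_dvd_pow h3
    omega
  have h2 : ∀ n : ℕ, padicValNat 2 (A 2 11 n) ≤ 4 := fun n =>
    Pool.Agent.H17.Bm11.val_le (n + 1) n
      (lt_trans Nat.lt_two_pow_self (Nat.pow_lt_pow_right (by norm_num) (Nat.lt_succ_self n)))
  refine ⟨⟨h1, h2⟩, fun h => ?_⟩
  obtain ⟨n, hn⟩ := h 2 11 Nat.prime_two (by norm_num) h1 4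
  have := h2 n
  omega

end Pool.Agent.Results.MP_8976f7_nt.Bounded
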